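import Mathlib

/-!
# Many elements of a set of positive integers, images under affine maps
-/

set_option autoImplicit false

namespace Pool.Agent.N735.RT

open Finset Filter

/-- at least `x / (log x) ^ B` elements of `S` are `≤ x`, for arbitrarily large `x` -/
def Many (B : ℕ) (S : Set ℕ) : Prop :=
  ∃ᶠ x : ℝ in atTop, x / Real.log x ^ B ≤ (({q : ℕ | q ∈ S ∧ (q : ℝ) ≤ x} : Set ℕ).ncard : ℝ)

theorem fin_le (S : Set ℕ) (x : ℝ) : ({q : ℕ | q ∈ S ∧ (q : ℝ) ≤ x} : Set ℕ).Finite :=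
  (Set.finite_Iic ⌊x⌋₊).subset (fun _ hq => Nat.le_floor hq.2)

theorem Many.mono {B : ℕ} {S T : Set ℕ} (h : Many B S) (hST : S ⊆ T) : Many B T := by
  refine Filter.Frequently.mono h fun x hx => hx.trans ?_
  rw [Nat.cast_le]
  exact Set.ncard_le_ncard (fun q hq => ⟨hST hq.1, hq.2⟩) (fin_le T x)

theorem large (B : ℕ) (N : ℝ) : ∀ᶠ x : ℝ in atTop, N ≤ x / Real.log x ^ B := by
  obtain ⟨M, hM⟩ : ∃ M : ℝ, M = |N| + 1 := ⟨_, rfl⟩
  have hM0 : 0 < M := by rw [hM]; positivity
  have hNM : N ≤ M := by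
    have := le_abs_self N
    linarith
  have h2 := (Real.isLittleO_pow_log_id_atTop (n := B)).def (c := 1 / M) (by positivity)
  filter_upwards [h2, eventually_ge_atTop (3 : ℝ)] with x hx hx3
  have h4 : (0 : ℝ) < Real.log x := Real.log_pos (by linarith)
  simp only [id, Real.norm_eq_abs] at hx
  rw [abs_of_nonneg (by positivity), abs_of_nonneg (by linarith)] at hx
  rw [le_div_iff₀ (by positivity)]
  have h5 : M * (Real.log x) ^ B ≤ M * (1 / M * x) :=
    mul_le_mul_of_nonneg_left hx (by positivity)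
  have h6 : M * (1 / M * x) = x := by
    field_simp
  have h7 : N * (Real.log x) ^ B ≤ M * (Real.log x) ^ B :=
    mul_le_mul_of_nonneg_right hNM (by positivity)
  linarith

theorem Many.infinite {B : ℕ} {S : Set ℕ} (h : Many B S) : S.Infinite := by
  intro hfin
  obtain ⟨x, hx1, hx2⟩ := (Filter.Frequently.and_eventually h (large B (S.ncard + 1))).exists
  have h1 : (({q : ℕ | q ∈ S ∧ (q : ℝ) ≤ x} : Set ℕ).ncard : ℝ) ≤ S.ncard := by
    rw [Nat.cast_le]
    exact Set.ncard_le_ncard (fun q hq => hq.1) hfin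
  linarith

/-- images under an affine map -/
theorem Many.affine {C : ℕ} {W S : Set ℕ} (h : Many C W) (A : ℕ) (hA : 1 ≤ A) (e : ℤ) (N₀ : ℕ)
    (hmap : ∀ n ∈ W, N₀ ≤ n → ∃ q ∈ S, (q : ℤ) = A * n + e) : Many (C + 1) S := by
  classical
  set c : ℕ := A + e.natAbs + 1 with hc
  have hc0 : (0 : ℝ) < c := by
    have : 0 < c := by omega
    exact_mod_cast this
  have hl : ∀ᶠ x : ℝ in atTop, (2 * c : ℝ) ≤ Real.log x :=
    Real.tendsto_log_atTop.eventually_ge_atTop _
  have key : ∃ᶠ y : ℝ in atTop, (c * y) / Real.log (c * y) ^ (C + 1) ≤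
      (({q : ℕ | q ∈ S ∧ (q : ℝ) ≤ c * y} : Set ℕ).ncard : ℝ) := by
    refine (Filter.Frequently.and_eventually h
      (hl.and ((large C (2 * (N₀ : ℝ))).and (eventually_ge_atTop (3 : ℝ))))).mono ?_
    rintro y ⟨hcnt, hlogc, hyN, hy3⟩
    set V : Set ℕ := {n : ℕ | n ∈ W ∧ N₀ ≤ n ∧ (n : ℝ) ≤ y} with hV
    have hVfin : V.Finite := (Set.finite_Iic ⌊y⌋₊).subset (fun _ hq => Nat.le_floor hq.2.2)
    have h1 : (({q : ℕ | q ∈ W ∧ (q : ℝ) ≤ y} : Set ℕ).ncard : ℝ) ≤ V.ncard + N₀ := by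
      have h2 : {q : ℕ | q ∈ W ∧ (q : ℝ) ≤ y} ⊆ V ∪ ((range N₀ : Finset ℕ) : Set ℕ) := by
        rintro n ⟨h3, h4⟩
        by_cases h5 : n < N₀
        · exact Or.inr (by rw [mem_coe, mem_range]; exact h5)
        · exact Or.inl ⟨h3, by omega, h4⟩
      have h3 := (Set.ncard_le_ncard h2 (hVfin.union (Finset.finite_toSet _))).trans
        (Set.ncard_union_le _ _)
      rw [Set.ncard_coe_finset, card_range] at h3
      exact_mod_cast h3
    choose! f hf1 hf2 using hmap
    have h2 : V.ncard ≤ ({q : ℕ | q ∈ S ∧ (q : ℝ) ≤ c * y} : Set ℕ).ncard := by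
      apply Set.ncard_le_ncard_of_injOn f _ _ (fin_le _ _)
      · rintro n ⟨h3, h4, h5⟩
        refine ⟨hf1 n h3 h4, ?_⟩
        have h6 := hf2 n h3 h4
        have h7 : ((f n : ℤ) : ℝ) = ((A * n + e : ℤ) : ℝ) := by rw [h6]
        push_cast at h7
        have h8 : (e : ℝ) ≤ (e.natAbs : ℝ) := by
          have h9 : e ≤ (e.natAbs : ℤ) := by omega
          rw [← Int.cast_natCast e.natAbs]
          exact Int.cast_le.2 h9
        have h10 : (c : ℝ) = A + e.natAbs + 1 := by rw [hc]; push_cast; ring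
        have h11 : (A : ℝ) * n ≤ A * y := mul_le_mul_of_nonneg_left h5 (Nat.cast_nonneg _)
        have h12 : ((e.natAbs : ℕ) : ℝ) * 1 ≤ (e.natAbs : ℕ) * y :=
          mul_le_mul_of_nonneg_left (by linarith) (Nat.cast_nonneg _)
        rw [h10]
        nlinarith
      · rintro n ⟨h3, h4, h5⟩ n' ⟨h3', h4', h5'⟩ he
        have h6 := hf2 n h3 h4
        have h6' := hf2 n' h3' h4'
        rw [he] at h6
        have h7 : (A : ℤ) * n = A * n' := by linarith
        have h8 : (A : ℤ) ≠ 0 := by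
          have : 0 < A := hA
          positivity
        exact_mod_cast mul_left_cancel₀ h8 h7
    have h11 : y / Real.log y ^ C ≤ V.ncard + N₀ := hcnt.trans h1
    have h12 : y / Real.log y ^ C / 2 ≤ V.ncard := by linarith
    have h13 : (V.ncard : ℝ) ≤ (({q : ℕ | q ∈ S ∧ (q : ℝ) ≤ c * y} : Set ℕ).ncard : ℝ) := by
      exact_mod_cast h2
    refine le_trans (le_trans ?_ h12) h13
    have hly : (0 : ℝ) < Real.log y := Real.log_pos (by linarith)
    have hc1 : (1 : ℝ) ≤ c := by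
      have : 1 ≤ c := by omega
      exact_mod_cast this
    have hyx : y ≤ c * y := by nlinarith
    have hlx : Real.log y ≤ Real.log (c * y) := Real.log_le_log (by linarith) hyx
    have hlx0 : (0 : ℝ) < Real.log (c * y) := by linarith
    rw [div_div, div_le_div_iff₀ (by positivity) (by positivity)]
    have h13 : (Real.log y) ^ (C + 1) ≤ (Real.log (c * y)) ^ (C + 1) :=
      pow_le_pow_left₀ hly.le hlx _
    calc (c * y : ℝ) * (Real.log y ^ C * 2) = (2 * c) * (y * Real.log y ^ C) := by ring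
      _ ≤ Real.log y * (y * Real.log y ^ C) :=
          mul_le_mul_of_nonneg_right hlogc (by positivity)
      _ = y * Real.log y ^ (C + 1) := by ring
      _ ≤ y * Real.log (c * y) ^ (C + 1) := mul_le_mul_of_nonneg_left h13 (by linarith)
  have ht : Tendsto (fun x : ℝ => (c : ℝ) * x) atTop atTop := tendsto_id.const_mul_atTop hc0
  exact ht.frequently key

end Pool.Agent.N735.RT
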