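import Mathlib
import Pool.Agent.Y876.FF.Fin
import Pool.Agent.N735.RT.Many

/-!
# Ratios of shifted primes: one of the ratios of 45 integers
-/

set_option autoImplicit false

namespace Pool.Agent.N735.RT

open Finset Filter

/-- the exponent of the logarithm -/
noncomputable def BR : ℕ := Pool.Agent.Y876.FF.CC 45 + 4

/-- the primes `q` such that `p + d = r (q + d)` with `p` prime -/
def QS (d : ℤ) (r : ℚ) : Set ℕ :=
  {q : ℕ | q.Prime ∧ ∃ p : ℕ, p.Prime ∧ (p : ℚ) + d = r * ((q : ℚ) + d)}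

/-- `r` and `1 / r` are of the form `(p + d) / (q + d)` for many primes `q` -/
def Gd (d : ℤ) (r : ℚ) : Prop := Many BR (QS d r) ∧ Many BR (QS d r⁻¹)

theorem Gd.inv {d : ℤ} {r : ℚ} (h : Gd d r) : Gd d r⁻¹ := ⟨h.2, by rw [inv_inv]; exact h.1⟩

theorem many_of_forms (d : ℤ) (u v : ℕ) (hu : 0 < u) (hv : 0 < v)
    (h : Many (Pool.Agent.Y876.FF.CC 45 + 3)
      {m : ℕ | ((u : ℤ) * m + -d).natAbs.Prime ∧ ((v : ℤ) * m + -d).natAbs.Prime}) :
    Many BR (QS d ((u : ℚ) / v)) := by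
  refine h.affine v hv (-d) (d.natAbs + 1) ?_
  rintro m ⟨h1, h2⟩ hm
  have hpos : ∀ w : ℕ, 0 < w → 0 < (w : ℤ) * m + -d := by
    intro w hw
    have h3 : (m : ℤ) ≤ w * m := by
      have h4 : (1 : ℤ) ≤ w := by exact_mod_cast hw
      nlinarith
    omega
  have hp := hpos u hu
  have hq := hpos v hv
  have ep : ((((u : ℤ) * m + -d).natAbs : ℕ) : ℤ) = (u : ℤ) * m + -d := by omega
  have eq : ((((v : ℤ) * m + -d).natAbs : ℕ) : ℤ) = (v : ℤ) * m + -d := by omega
  refine ⟨_, ⟨h2, _, h1, ?_⟩, eq⟩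
  have ep' : (((((u : ℤ) * m + -d).natAbs : ℕ) : ℤ) : ℚ) = (((u : ℤ) * m + -d : ℤ) : ℚ) := by rw [ep]
  have eq' : (((((v : ℤ) * m + -d).natAbs : ℕ) : ℤ) : ℚ) = (((v : ℤ) * m + -d : ℤ) : ℚ) := by rw [eq]
  rw [Int.cast_natCast] at ep' eq'
  rw [ep', eq']
  have hv' : (v : ℚ) ≠ 0 := by exact_mod_cast hv.ne'
  push_cast
  field_simp
  ring

theorem pair45 (d : ℤ) (hd : d ≠ 0) (n : Fin 45 → ℕ) (hn : ∀ i, 0 < n i)
    (hinj : Function.Injective n) (hcop : ∀ i, IsCoprime (n i : ℤ) d) :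
    ∃ i j, i ≠ j ∧ Gd d ((n i : ℚ) / n j) := by
  classical
  have hex := Pool.Agent.Y876.FF.trace_int Pool.Agent.Y876.FF.lh45
    (fun i : Fin 45 => (n i : ℤ)) (fun _ => -d) (fun i => by exact_mod_cast hn i)
    (fun i j hij h => by
      have h1 : (n i : ℤ) = n j := mul_right_cancel₀ (neg_ne_zero.2 hd) h
      exact hij (hinj (by exact_mod_cast h1))) univ (by simp) (by
      intro p hp
      by_cases hpd : (p : ℤ) ∣ d
      · refine ⟨1, fun i _ hdvd => ?_⟩
        have h1 : (p : ℤ) ∣ (n i : ℤ) := by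
          have h2 : (n i : ℤ) = ((n i : ℤ) * ((1 : ℕ) : ℤ) + -d) + d := by push_cast; ring
          rw [h2]
          exact dvd_add hdvd hpd
        exact (Nat.prime_iff_prime_int.1 hp).not_isUnit ((hcop i).isUnit_of_dvd' h1 hpd)
      · refine ⟨0, fun i _ hdvd => hpd ?_⟩
        simpa using hdvd)
  have h1 : ∃ T : Finset (Fin 45), 2 ≤ T.card ∧ ∃ᶠ x : ℝ in atTop,
      x / Real.log x ^ (Pool.Agent.Y876.FF.CC 45 + 3) ≤ (Set.ncard {m : ℕ | (m : ℝ) ≤ x ∧
        ∀ i, ((n i : ℤ) * (m : ℤ) + -d).natAbs.Prime ↔ i ∈ T} : ℝ) := by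
    by_contra hcon
    push Not at hcon
    have h2 : ∀ᶠ x : ℝ in atTop, ∀ T : Finset (Fin 45), 2 ≤ T.card →
        (Set.ncard {m : ℕ | (m : ℝ) ≤ x ∧
          ∀ i, ((n i : ℤ) * (m : ℤ) + -d).natAbs.Prime ↔ i ∈ T} : ℝ) <
        x / Real.log x ^ (Pool.Agent.Y876.FF.CC 45 + 3) := by
      rw [Filter.eventually_all]
      intro T
      by_cases hT : 2 ≤ T.card
      · filter_upwards [hcon T hT] with x hx _
        exact hx
      · exact Filter.Eventually.of_forall (fun x h => absurd h hT)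
    obtain ⟨x, ⟨T, -, hT2, hT3⟩, hx⟩ := (hex.and h2).exists
    exact absurd hT3 (not_le.2 (hx T hT2))
  obtain ⟨T, hT2, hT⟩ := h1
  obtain ⟨i, hi, j, hj, hij⟩ := Finset.one_lt_card.1 (show 1 < T.card by omega)
  have key : ∀ i ∈ T, ∀ j ∈ T, Many (Pool.Agent.Y876.FF.CC 45 + 3)
      {m : ℕ | ((n i : ℤ) * m + -d).natAbs.Prime ∧ ((n j : ℤ) * m + -d).natAbs.Prime} := by
    intro i hi j hj
    refine Filter.Frequently.mono hT fun x hx => hx.trans ?_
    rw [Nat.cast_le]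
    refine Set.ncard_le_ncard ?_ (fin_le _ _)
    rintro m ⟨h3, h4⟩
    exact ⟨⟨(h4 i).2 hi, (h4 j).2 hj⟩, h3⟩
  refine ⟨i, j, hij, many_of_forms d _ _ (hn i) (hn j) (key i hi j hj), ?_⟩
  rw [inv_div]
  exact many_of_forms d _ _ (hn j) (hn i) (key j hj i hi)

/-- the positive rationals with numerator and denominator prime to `d` -/
def Pos (d : ℤ) (r : ℚ) : Prop := 0 < r ∧ IsCoprime r.num d ∧ IsCoprime (r.den : ℤ) d

/-- `45` distinct rationals contain two with a good ratio -/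
theorem pairQ (d : ℤ) (hd : d ≠ 0) (F : Finset ℚ) (hF : 45 ≤ F.card) (hpos : ∀ r ∈ F, Pos d r) :
    ∃ r ∈ F, ∃ s ∈ F, r ≠ s ∧ Gd d (r / s) := by
  classical
  obtain ⟨F', hF', hcard⟩ := Finset.exists_subset_card_eq hF
  set e : Fin 45 ≃ F' := (F'.equivFinOfCardEq hcard).symm with he
  set N : ℕ := ∏ r ∈ F', r.den with hN
  have hN0 : 0 < N := Finset.prod_pos (fun r _ => r.den_pos)
  have hNcop : IsCoprime (N : ℤ) d := by
    rw [hN]
    push_cast
    exact IsCoprime.prod_left (fun r hr => (hpos r (hF' hr)).2.2)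
  have hdiv : ∀ r ∈ F', r.den ∣ N := fun r hr => Finset.dvd_prod_of_mem _ hr
  -- `N r` as a natural number
  set n : ℚ → ℕ := fun r => r.num.toNat * (N / r.den) with hn
  have hnum : ∀ r ∈ F', (r.num.toNat : ℤ) = r.num := fun r hr =>
    Int.toNat_of_nonneg (Rat.num_nonneg.2 (hpos r (hF' hr)).1.le)
  have hval : ∀ r ∈ F', (n r : ℚ) = N * r := by
    intro r hr
    have h1 : ((N / r.den : ℕ) : ℚ) = N / r.den := by
      rw [Nat.cast_div (hdiv r hr) (by exact_mod_cast r.den_pos.ne')]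
    have h2 : (r.num.toNat : ℚ) = r.num := by
      have := hnum r hr
      exact_mod_cast this
    have h3 : (r.den : ℚ) ≠ 0 := by exact_mod_cast r.den_pos.ne'
    simp only [hn]
    push_cast [h1]
    rw [h2]
    nth_rewrite 3 [← Rat.num_div_den r]
    ring
  have hnpos : ∀ r ∈ F', 0 < n r := by
    intro r hr
    have h1 : (0 : ℚ) < n r := by
      rw [hval r hr]
      have := (hpos r (hF' hr)).1
      positivity
    exact_mod_cast h1
  have hcop : ∀ r ∈ F', IsCoprime (n r : ℤ) d := by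
    intro r hr
    simp only [hn]
    push_cast
    rw [hnum r hr]
    apply IsCoprime.mul_left (hpos r (hF' hr)).2.1
    have h1 : ((N : ℤ) / (r.den : ℤ)) ∣ (N : ℤ) :=
      Int.ediv_dvd_of_dvd (by exact_mod_cast hdiv r hr)
    exact hNcop.of_isCoprime_of_dvd_left h1
  have hinj : ∀ r ∈ F', ∀ s ∈ F', n r = n s → r = s := by
    intro r hr s hs h
    have h1 : (n r : ℚ) = n s := by rw [h]
    rw [hval r hr, hval s hs] at h1
    exact mul_left_cancel₀ (by exact_mod_cast hN0.ne') h1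
  obtain ⟨i, j, hij, h⟩ := pair45 d hd (fun i => n (e i)) (fun i => hnpos _ (e i).2)
    (fun i j h => e.injective (Subtype.ext (hinj _ (e i).2 _ (e j).2 h)))
    (fun i => hcop _ (e i).2)
  refine ⟨e i, hF' (e i).2, e j, hF' (e j).2, fun h => hij (e.injective (Subtype.ext h)), ?_⟩
  rw [hval _ (e i).2, hval _ (e j).2, mul_div_mul_left _ _ (by exact_mod_cast hN0.ne')] at h
  exact h

/-- A maximal set without good ratios. -/
theorem cover (d : ℤ) (hd : d ≠ 0) (S : Set ℚ) (hS : ∀ r ∈ S, Pos d r) :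
    ∃ F : Finset ℚ, F.card ≤ 44 ∧ (∀ r ∈ F, r ∈ S) ∧ ∀ r ∈ S, r ∈ F ∨ ∃ s ∈ F, Gd d (r / s) := by
  classical
  set P : ℕ → Prop := fun k => ∃ F : Finset ℚ, F.card = k ∧ (∀ r ∈ F, r ∈ S) ∧
    ∀ r ∈ F, ∀ s ∈ F, r ≠ s → ¬ Gd d (r / s) with hP
  have h0 : P 0 := ⟨∅, rfl, by simp, by simp⟩
  have hb : ∀ k, P k → k ≤ 44 := by
    rintro k ⟨F, hk, h1, h2⟩
    by_contra hlt
    obtain ⟨r, hr, s, hs, hrs, h3⟩ := pairQ d hd F (by omega) (fun r hr => hS r (h1 r hr))
    exact h2 r hr s hs hrs h3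
  have hmax := Nat.findGreatest_spec (P := P) (n := 44) (Nat.zero_le _) h0
  obtain ⟨F, hk, h1, h2⟩ := hmax
  refine ⟨F, ?_, h1, fun r hr => ?_⟩
  · rw [hk]
    exact Nat.findGreatest_le 44
  · by_contra hcon
    push Not at hcon
    obtain ⟨hrF, hbad⟩ := hcon
    have h3 : P (F.card + 1) := by
      refine ⟨insert r F, card_insert_of_notMem hrF, ?_, ?_⟩
      · intro s hs
        rcases mem_insert.1 hs with rfl | h
        · exact hr
        · exact h1 s h
      · intro s hs t ht hst hG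
        rcases mem_insert.1 hs with rfl | h
        · rcases mem_insert.1 ht with rfl | h'
          · exact hst rfl
          · exact hbad t h' hG
        · rcases mem_insert.1 ht with rfl | h'
          · apply hbad s h
            have := hG.inv
            rwa [inv_div] at this
          · exact h2 s h t h' hst hG
    have h4 := hb _ h3
    have h5 := Nat.le_findGreatest h4 h3
    omega

end Pool.Agent.N735.RT
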