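import Mathlib
import Pool.Agent.N735.RT.Pair

/-!
# Finitely many dilates of the ratios of shifted primes cover the rationals; densities
-/

set_option autoImplicit false

namespace Pool.Agent.N735.RT

open Finset Filter

theorem Pos.mul {d : ℤ} {r s : ℚ} (hr : Pos d r) (hs : Pos d s) : Pos d (r * s) := by
  obtain ⟨h1, h2, h3⟩ := hr
  obtain ⟨h4, h5, h6⟩ := hs
  refine ⟨mul_pos h1 h4, ?_, ?_⟩
  · have h7 : (r * s).num ∣ r.num * s.num := by
      rw [Rat.mul_num]
      exact Int.ediv_dvd_of_dvd (Int.natCast_dvd.2 (Nat.gcd_dvd_left _ _))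
    exact (h2.mul_left h5).of_isCoprime_of_dvd_left h7
  · have h7 : ((r * s).den : ℤ) ∣ (r.den : ℤ) * s.den := by
      exact_mod_cast Rat.mul_den_dvd r s
    exact (h3.mul_left h6).of_isCoprime_of_dvd_left h7

theorem Pos.natCast {d : ℤ} {n : ℕ} (hn : 0 < n) (h : IsCoprime (n : ℤ) d) : Pos d (n : ℚ) := by
  refine ⟨by exact_mod_cast hn, ?_, ?_⟩
  · rw [Rat.num_natCast]
    exact h
  · rw [Rat.den_natCast]
    exact isCoprime_one_left

theorem Pos.inv {d : ℤ} {r : ℚ} (hr : Pos d r) : Pos d r⁻¹ := by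
  obtain ⟨h1, h2, h3⟩ := hr
  have hn : 0 < r.num := Rat.num_pos.2 h1
  refine ⟨inv_pos.2 h1, ?_, ?_⟩
  · rw [Rat.num_inv, Int.sign_eq_one_of_pos hn, one_mul]
    exact h3
  · rw [Rat.den_inv, if_neg hn.ne']
    rw [Int.natCast_natAbs, abs_of_pos hn]
    exact h2

/-- integral dilates -/
theorem coverN (d : ℤ) (hd : d ≠ 0) : ∃ M : Finset ℕ, M.Nonempty ∧ M.card ≤ 44 ∧
    (∀ m ∈ M, 0 < m ∧ IsCoprime (m : ℤ) d) ∧
    ∀ r : ℚ, Pos d r → ∃ m ∈ M, (m : ℚ) * r = 1 ∨ Gd d (m * r) := by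
  classical
  obtain ⟨F, hF, hFS, hcov⟩ := cover d hd {r | Pos d r} (fun r hr => hr)
  set N : ℕ := ∏ s ∈ F, s.num.toNat with hN
  have hnum : ∀ s ∈ F, 0 < s.num := fun s hs => Rat.num_pos.2 (hFS s hs).1
  have hnum' : ∀ s ∈ F, (s.num.toNat : ℤ) = s.num := fun s hs =>
    Int.toNat_of_nonneg (hnum s hs).le
  have hN0 : 0 < N := Finset.prod_pos (fun s hs => by have := hnum s hs; omega)
  have hNcop : IsCoprime (N : ℤ) d := by
    rw [hN]
    push_cast
    apply IsCoprime.prod_left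
    intro s hs
    rw [hnum' s hs]
    exact (hFS s hs).2.1
  have hdiv : ∀ s ∈ F, s.num.toNat ∣ N := fun s hs => Finset.dvd_prod_of_mem _ hs
  set m : ℚ → ℕ := fun s => (N / s.num.toNat) * s.den with hm
  have hval : ∀ s ∈ F, (m s : ℚ) = N / s := by
    intro s hs
    have h0 : (s.num.toNat : ℚ) = s.num := by
      have := hnum' s hs
      exact_mod_cast this
    have h00 : (s.num : ℚ) ≠ 0 := by exact_mod_cast (hnum s hs).ne'
    have h1 : ((N / s.num.toNat : ℕ) : ℚ) = N / s.num := by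
      rw [Nat.cast_div (hdiv s hs) (by rw [h0]; exact h00), h0]
    have h3 : (s.den : ℚ) ≠ 0 := by exact_mod_cast s.den_pos.ne'
    simp only [hm]
    push_cast [h1]
    nth_rewrite 3 [← Rat.num_div_den s]
    field_simp
  have hmpos : ∀ s ∈ F, 0 < m s := by
    intro s hs
    have h1 : (0 : ℚ) < m s := by
      rw [hval s hs]
      have := (hFS s hs).1
      positivity
    exact_mod_cast h1
  have hmcop : ∀ s ∈ F, IsCoprime (m s : ℤ) d := by
    intro s hs
    simp only [hm]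
    push_cast
    apply IsCoprime.mul_left _ (hFS s hs).2.2
    have h1 : ((N : ℤ) / (s.num.toNat : ℤ)) ∣ (N : ℤ) :=
      Int.ediv_dvd_of_dvd (by exact_mod_cast hdiv s hs)
    exact hNcop.of_isCoprime_of_dvd_left h1
  have key : ∀ r : ℚ, Pos d r → ∃ k ∈ F.image m, (k : ℚ) * r = 1 ∨ Gd d (k * r) := by
    intro r hr
    have hPr : Pos d ((N : ℚ) * r) := (Pos.natCast hN0 hNcop).mul hr
    rcases hcov _ hPr with h | ⟨s, hs, h⟩
    · refine ⟨m (N * r), mem_image_of_mem _ h, Or.inl ?_⟩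
      rw [hval _ h]
      have h1 : (N : ℚ) ≠ 0 := by exact_mod_cast hN0.ne'
      have h2 : r ≠ 0 := hr.1.ne'
      field_simp
    · refine ⟨m s, mem_image_of_mem _ hs, Or.inr ?_⟩
      rw [hval _ hs]
      have e1 : (N : ℚ) / s * r = N * r / s := by ring
      rw [e1]
      exact h
  refine ⟨F.image m, ?_, card_image_le.trans hF, ?_, key⟩
  · obtain ⟨k, hk, -⟩ := key 1 ⟨one_pos, by simpa using isCoprime_one_left, by simpa using isCoprime_one_left⟩
    exact ⟨k, hk⟩
  · intro k hk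
    obtain ⟨s, hs, rfl⟩ := mem_image.1 hk
    exact ⟨hmpos s hs, hmcop s hs⟩

open Classical in
/-- a positive proportion of the `b`, uniformly in `a` -/
theorem dens (d : ℤ) (hd : d ≠ 0) : ∃ (κ : ℝ) (Y₀ : ℕ), 0 < κ ∧ ∀ a : ℕ, 1 ≤ a → IsCoprime (a : ℤ) d →
    ∀ Y : ℕ, Y₀ ≤ Y → κ * Y ≤ (((Icc 1 Y).filter (fun b : ℕ =>
      b ≠ a ∧ IsCoprime (b : ℤ) d ∧ Gd d ((b : ℚ) / a))).card : ℝ) := by
  obtain ⟨M, hMne, hM, hMpos, hcov⟩ := coverN d hd
  -- the largest dilation factor
  set L : ℕ := M.sup id with hL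
  have hmL : ∀ m ∈ M, m ≤ L := fun m hm => Finset.le_sup (f := id) hm
  have hL0 : 0 < L := by
    obtain ⟨m, hm⟩ := hMne
    exact (hMpos m hm).1.trans_le (hmL m hm)
  set D : ℕ := d.natAbs with hD
  have hD0 : 0 < D := Int.natAbs_pos.2 hd
  refine ⟨1 / (88 * (L * D)), L * D * 200, by positivity, fun a ha hacop Y hY => ?_⟩
  -- the integers `b' ≡ 1` modulo `|d|`
  set K : ℕ := Y / (L * D) with hK
  set T : Finset ℕ := (range K).image (fun k => k * D + 1) with hT
  have hTcard : T.card = K := by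
    rw [hT, card_image_of_injective, card_range]
    intro x y h
    simp only [add_left_inj] at h
    exact Nat.eq_of_mul_eq_mul_right hD0 h
  have hTcop : ∀ t ∈ T, IsCoprime (t : ℤ) d := by
    intro t ht
    obtain ⟨k, _, rfl⟩ := mem_image.1 ht
    have h1 : IsCoprime ((1 : ℤ) + d * (k * d.sign)) d := by
      rw [IsCoprime.add_mul_left_left_iff]
      exact isCoprime_one_left
    have h2 : (((k * D + 1 : ℕ)) : ℤ) = 1 + d * (k * d.sign) := by
      have h3 : d * d.sign = (D : ℤ) := by rw [hD]; exact Int.mul_sign_self d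
      push_cast
      rw [← h3]
      ring
    rw [h2]
    exact h1
  have hTle : ∀ t ∈ T, 1 ≤ t ∧ t * L ≤ Y := by
    intro t ht
    obtain ⟨k, hk, rfl⟩ := mem_image.1 ht
    rw [mem_range] at hk
    refine ⟨by omega, ?_⟩
    have h1 : K * (L * D) ≤ Y := Nat.div_mul_le_self _ _
    have h2 : (k * D + 1) * L ≤ (k + 1) * (L * D) := by nlinarith
    have h3 : (k + 1) * (L * D) ≤ K * (L * D) := Nat.mul_le_mul_right _ hk
    omega
  -- the exceptional `b'`
  set X : Finset ℕ := T.filter (fun t => ∃ m ∈ M, m * t = a) with hX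
  have hXcard : X.card ≤ 44 := by
    have h1 : X ⊆ M.image (fun m => a / m) := by
      intro t ht
      obtain ⟨-, m, hm, h2⟩ := mem_filter.1 ht
      refine mem_image.2 ⟨m, hm, ?_⟩
      rw [← h2]
      exact Nat.mul_div_cancel_left t (hMpos m hm).1
    exact (card_le_card h1).trans (card_image_le.trans hM)
  set G : Finset ℕ := (Icc 1 Y).filter (fun b : ℕ =>
      b ≠ a ∧ IsCoprime (b : ℤ) d ∧ Gd d ((b : ℚ) / a)) with hG
  have ha0 : (a : ℚ) ≠ 0 := by
    have : a ≠ 0 := by omega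
    exact_mod_cast this
  -- each other `b'` has a dilate in `G`
  have hmap : ∀ t ∈ T \ X, ∃ m ∈ M, m * t ∈ G := by
    intro t ht
    obtain ⟨ht1, ht2⟩ := mem_sdiff.1 ht
    have hne : ∀ m ∈ M, m * t ≠ a := by
      intro m hm h
      exact ht2 (mem_filter.2 ⟨ht1, m, hm, h⟩)
    obtain ⟨ht3, ht4⟩ := hTle t ht1
    have hpos : Pos d ((t : ℚ) / a) := by
      rw [div_eq_mul_inv]
      exact (Pos.natCast (by omega) (hTcop t ht1)).mul (Pos.natCast (by omega) hacop).inv
    obtain ⟨m, hm, h⟩ := hcov _ hpos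
    have e1 : (m : ℚ) * ((t : ℚ) / a) = ((m * t : ℕ) : ℚ) / a := by
      push_cast
      ring
    refine ⟨m, hm, mem_filter.2 ⟨mem_Icc.2 ⟨Nat.mul_pos (hMpos m hm).1 (by omega), ?_⟩,
      hne m hm, ?_, ?_⟩⟩
    · calc m * t ≤ L * t := Nat.mul_le_mul_right _ (hmL m hm)
        _ = t * L := by ring
        _ ≤ Y := ht4
    · push_cast
      exact (hMpos m hm).2.mul_left (hTcop t ht1)
    · rw [e1] at h
      rcases h with h | h
      · exfalso
        apply hne m hm
        rw [div_eq_one_iff_eq ha0] at h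
        exact_mod_cast h
      · exact h
  -- counting
  have hcount : (T \ X).card ≤ 44 * G.card := by
    have h1 : T \ X ⊆ M.biUnion (fun m => G.image (fun b => b / m)) := by
      intro t ht
      obtain ⟨m, hm, h⟩ := hmap t ht
      refine mem_biUnion.2 ⟨m, hm, mem_image.2 ⟨_, h, Nat.mul_div_cancel_left t (hMpos m hm).1⟩⟩
    calc (T \ X).card ≤ (M.biUnion (fun m => G.image (fun b => b / m))).card := card_le_card h1
      _ ≤ ∑ m ∈ M, (G.image (fun b => b / m)).card := card_biUnion_le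
      _ ≤ ∑ _m ∈ M, G.card := sum_le_sum (fun m _ => card_image_le)
      _ = M.card * G.card := by rw [sum_const, smul_eq_mul]
      _ ≤ 44 * G.card := Nat.mul_le_mul_right _ hM
  have h2 : K ≤ 44 * G.card + 44 := by
    have h3 : T.card ≤ (T \ X).card + X.card := by
      have := card_sdiff_add_card T X
      have h4 : (T ∪ X).card ≥ T.card := card_le_card subset_union_left
      omega
    omega
  have hLD : 0 < L * D := Nat.mul_pos hL0 hD0
  have h5 : Y < (K + 1) * (L * D) := by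
    have := Nat.lt_div_mul_add hLD (a := Y)
    rw [← hK] at this
    linarith [this]
  have h6 : (Y : ℝ) < (K + 1) * (L * D) := by exact_mod_cast h5
  have h7 : (K : ℝ) ≤ 44 * G.card + 44 := by exact_mod_cast h2
  have hK200 : 200 ≤ K := by
    rw [hK, Nat.le_div_iff_mul_le hLD]
    linarith [hY]
  have h8 : (200 : ℝ) ≤ K := by exact_mod_cast hK200
  have hLDr : (0 : ℝ) < L * D := by exact_mod_cast hLD
  rw [div_mul_eq_mul_div, one_mul, div_le_iff₀ (by positivity)]
  have h9 : (K + 1 : ℝ) ≤ 88 * G.card := by linarith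
  calc (Y : ℝ) ≤ (K + 1) * (L * D) := h6.le
    _ ≤ (88 * G.card) * (L * D) := mul_le_mul_of_nonneg_right h9 hLDr.le
    _ = (G.card : ℝ) * (88 * (L * D)) := by ring

end Pool.Agent.N735.RT
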